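import Pool.Agent.NPB.St

/-!
# NPB, HIB: the hierarchy theorem for Boolean combinations (helper37)
-/

set_option autoImplicit false

namespace Pool.Agent.NPB

open Pool.Agent.Heads Pool.Agent.NPH Relation

theorem t_HIB : HIB_Stmt := by
  intro hU hL hC r S hr
  obtain ⟨U, hUc, hT⟩ := hU r S
  obtain ⟨S', hS'⟩ := hL Lam r hr (fun n a => ¬ U n a) (hC.not (Option Lam) U hUc)
  refine ⟨Lam, inferInstance, S', _, hS', ?_⟩
  rintro ⟨ι, hι, K, 𝓕, hK, hKL⟩
  choose T hTK using hK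
  obtain ⟨x, hx⟩ := hT ι hι T 𝓕
  have h1 : {i | x ∈ (T i).lang} = {i | x ∈ K i} := by
    ext i
    show x ∈ (T i).lang ↔ x ∈ K i
    rw [hTK i]
  rw [h1, ← hKL x] at hx
  have h2 : (x ∈ {x : List Lam | ¬ U x.length (fun i => x[(i : ℕ)]?)}) ↔
      ¬ U x.length (fun i => x[(i : ℕ)]?) := Iff.rfl
  rw [h2] at hx
  exact iff_not_self hx

end Pool.Agent.NPB
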