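import Pool.Agent.NPB.St

/-!
# NPB, module SIB: the universal predicate with a start state simulates the machine

Adaptation of `NPH/SIM.lean` (helper34).
-/

set_option autoImplicit false

namespace Pool.Agent.NPB

open Pool.Agent.Heads Pool.Agent.NPH Relation

namespace SIB

section

variable {r S s ω : ℕ} (T : RM Lam r S) (q : T.Q → ℕ) (e : Lab r S → ℕ)

/-- the image of a configuration -/
def Im {N : ℕ} (c : T.Q × ℕ × (Fin N → Fin S) × (Fin r → ℕ)) : (Fin N → Fin S) × (Nu r → ℕ) :=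
  (c.2.2.1, Sum.elim ![q c.1, c.2.1] c.2.2.2)

/-- cursor and heads on the tape -/
def Ok {N : ℕ} (M : ℕ) (c : T.Q × ℕ × (Fin N → Fin S) × (Fin r → ℕ)) : Prop :=
  c.2.1 ≤ M ∧ ∀ j, c.2.2.2 j ≤ M

theorem move_le {N p : ℕ} (h : p ≤ N) (d : Dir) : move N p d ≤ N := by
  cases d <;> simp only [move] <;> omega

theorem im_le {N M : ℕ} {c : T.Q × ℕ × (Fin N → Fin S) × (Fin r → ℕ)} (h : Ok T M c)
    (hlt : ∀ P, q P < s) (hs : s ≤ M) (j : Nu r) : (Im T q c).2 j ≤ M := by
  rcases j with j | j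
  · fin_cases j
    · show q c.1 ≤ M
      have := hlt c.1
      omega
    · exact h.1
  · exact h.2 j

theorem ok_mic {x : List Lam} {c c' : T.Q × ℕ × (Fin (x.length + 1) → Fin S) × (Fin r → ℕ)}
    (h : Ok T (x.length + 1) c) (h2 : Mic T x c c') : Ok T (x.length + 1) c' := by
  obtain ⟨hk, hh⟩ := h
  rcases h2 with ⟨h1, h2, h3, -⟩ | ⟨h1, h2, -, d, -, h5⟩
  · exact ⟨h2, fun j => by rw [h3]; exact hh j⟩
  · exact ⟨by rw [h2]; exact Nat.zero_le _, fun j => by rw [h5]; exact move_le (hh j) _⟩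

theorem ok_chain {x : List Lam} {c c' : T.Q × ℕ × (Fin (x.length + 1) → Fin S) × (Fin r → ℕ)}
    (h : Ok T (x.length + 1) c) (h2 : ReflTransGen (Mic T x) c c') : Ok T (x.length + 1) c' := by
  induction h2 with
  | refl => exact h
  | tail _ h3 ih => exact ok_mic T ih h3

theorem step_iff (hN : SCN_Stmt) {x : List Lam}
    (hb : ∀ (L : Lab r S) (P : T.Q) (p' : ℕ),
      Bit ω (e L) onL x.length (fun i => x[(i : ℕ)]?) ![q P, p'] ↔ ∃ P', q P' = p' ∧ trn T P P' L)
    (hlt : ∀ P, q P < s) (hs : s ≤ x.length)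
    (c : T.Q × ℕ × (Fin (x.length + 1) → Fin S) × (Fin r → ℕ)) (hc : Ok T (x.length + 1) c)
    (y : (Fin (x.length + 1) → Fin S) × (Nu r → ℕ)) :
    StepOf (USt ω e) x.length (fun i => x[(i : ℕ)]?) Empty.elim (Im T q c) y ↔
      ∃ c', y = Im T q c' ∧ Ok T (x.length + 1) c' ∧ Mic T x c c' := by
  obtain ⟨P, k, mem, h⟩ := c
  obtain ⟨hk, hh⟩ := hc
  obtain ⟨w, v⟩ := y
  simp only at hk hh
  constructor
  · rintro ⟨-, hv, (⟨h1, h2, m, h3, h4⟩ | ⟨h1, h2, h3, l, h4, h5⟩)⟩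
    · obtain ⟨P', e2, e3⟩ := (hb (Sum.inl m) P (v (Sum.inl 0))).1 h3
      have h1' : v (Sum.inl 1) = k + 1 := h1
      have h2' : ∀ j, v (Sum.inr j) = h j := h2
      refine ⟨(P', k + 1, w, h), ?_, ⟨?_, hh⟩, Or.inl ⟨rfl, ?_, rfl, m, e3, ?_⟩⟩
      · refine Prod.ext rfl (funext fun j => ?_)
        rcases j with j | j
        · fin_cases j
          · exact e2.symm
          · exact h1'
        · exact h2' j
      · have := hv (Sum.inl 1)
        simp only at this ⊢
        omega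
      · have := hv (Sum.inl 1)
        simp only at this ⊢
        omega
      · intro i
        have := h4 i
        refine ⟨fun h6 => this.1 ?_, fun h6 => this.2 ?_⟩
        · show v (Sum.inl 1) = i.val + 1
          rw [h1']
          exact h6
        · show v (Sum.inl 1) ≠ i.val + 1
          rw [h1']
          exact h6
    · obtain ⟨P', e2, e3⟩ := (hb (Sum.inr (Sum.inl l)) P (v (Sum.inl 0))).1 h4
      have h1' : k = x.length + 1 := h1
      have h2' : v (Sum.inl 1) = 0 := h2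
      have h3' : w = mem := funext h3
      have h6 : ∀ j, l.1 j = tape x (h j) := fun j => (hN x (l.1 j) _ (hh j)).1 (h5 j).1
      have h7 : ∀ j, v (Sum.inr j) = move (x.length + 1) (h j) (l.2 j) := fun j => (h5 j).2
      refine ⟨(P', 0, mem, fun j => move (x.length + 1) (h j) (l.2 j)), ?_, ⟨Nat.zero_le _,
        fun j => move_le (hh j) _⟩, Or.inr ⟨h1', rfl, rfl, l.2, ?_, rfl⟩⟩
      · refine Prod.ext h3' (funext fun j => ?_)
        rcases j with j | j
        · fin_cases j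
          · exact e2.symm
          · exact h2'
        · exact h7 j
      · have h8 : (fun j => tape x (h j)) = l.1 := funext fun j => (h6 j).symm
        show (P', l.2) ∈ T.hd P fun j => tape x (h j)
        rw [h8]
        exact e3
  · rintro ⟨⟨P', k', mem', h'⟩, hy, ⟨hk', hh'⟩, hm⟩
    rw [hy]
    simp only at hk' hh'
    refine ⟨im_le T q ⟨hk, hh⟩ hlt (by omega), im_le T q ⟨hk', hh'⟩ hlt (by omega), ?_⟩
    · rcases hm with ⟨h1, h2, h3, m, h4, h5⟩ | ⟨h1, h2, h3, d, h4, h5⟩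
      · left
        refine ⟨h1, fun j => congrFun h3 j, m, (hb (Sum.inl m) P (q P')).2 ⟨P', rfl, h4⟩, ?_⟩
        intro i
        exact h5 i
      · right
        refine ⟨h1, h2, fun i => congrFun h3 i, ((fun j => tape x (h j)), d),
          (hb (Sum.inr (Sum.inl _)) P (q P')).2 ⟨P', rfl, h4⟩, ?_⟩
        intro j
        exact ⟨(hN x _ _ (hh j)).2 rfl, congrFun h5 j⟩

theorem chain_iff (hN : SCN_Stmt) {x : List Lam}
    (hb : ∀ (L : Lab r S) (P : T.Q) (p' : ℕ),
      Bit ω (e L) onL x.length (fun i => x[(i : ℕ)]?) ![q P, p'] ↔ ∃ P', q P' = p' ∧ trn T P P' L)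
    (hlt : ∀ P, q P < s) (hs : s ≤ x.length)
    (c : T.Q × ℕ × (Fin (x.length + 1) → Fin S) × (Fin r → ℕ)) (hc : Ok T (x.length + 1) c)
    (y : (Fin (x.length + 1) → Fin S) × (Nu r → ℕ)) :
    ReflTransGen (StepOf (USt ω e) x.length (fun i => x[(i : ℕ)]?) Empty.elim)
      (Im T q c) y ↔
      ∃ c', y = Im T q c' ∧ ReflTransGen (Mic T x) c c' := by
  constructor
  · intro h
    induction h with
    | refl => exact ⟨c, rfl, ReflTransGen.refl⟩
    | tail _ h2 ih =>
      obtain ⟨c', rfl, h4⟩ := ih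
      obtain ⟨c'', h5, h6, h7⟩ := (step_iff T q e hN hb hlt hs c' (ok_chain T hc h4) _).1 h2
      exact ⟨c'', h5, h4.tail h7⟩
  · rintro ⟨c', rfl, h⟩
    induction h with
    | refl => exact ReflTransGen.refl
    | @tail c₁ c₂ h1 h2 ih =>
      have hok := ok_chain T hc h1
      exact ih.tail ((step_iff T q e hN hb hlt hs c₁ hok _).2 ⟨c₂, rfl, ok_mic T hok h2, h2⟩)

theorem main (hN : SCN_Stmt) (hW : SWP_Stmt) (hM : MIC_Stmt) {x : List Lam}
    (hb : ∀ (L : Lab r S) (P : T.Q) (p' : ℕ),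
      Bit ω (e L) onL x.length (fun i => x[(i : ℕ)]?) ![q P, p'] ↔ ∃ P', q P' = p' ∧ trn T P P' L)
    (hlt : ∀ P, q P < s) (hs : s ≤ x.length) :
    UniP ω e x.length (fun i => x[(i : ℕ)]?) ![q T.start] ↔ x ∈ T.lang := by
  rw [hM hW Lam r S T x]
  have hok : Ok T (x.length + 1) (T.start, 0, (fun _ : Fin (x.length + 1) => T.blank),
      fun _ : Fin r => 0) := ⟨Nat.zero_le _, fun _ => Nat.zero_le _⟩
  constructor
  · rintro ⟨c, c', -, -, ⟨h0, h1, h1', b, h2, h3⟩, h4, h5, h6⟩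
    obtain ⟨_, _, h7⟩ := (hb (Sum.inr (Sum.inr (Sum.inr b))) T.start (q T.start)).1 h3
    have h8 : b = T.blank := h7
    have h9 : c = Im T q (T.start, 0, (fun _ : Fin (x.length + 1) => T.blank),
        fun _ : Fin r => 0) := by
      refine Prod.ext (funext fun i => (h2 i).trans h8) (funext fun j => ?_)
      rcases j with j | j
      · fin_cases j
        · exact h0
        · exact h1
      · exact h1' j
    rw [h9] at h4
    obtain ⟨⟨P, k, mem, h⟩, h10, h12⟩ := (chain_iff T q e hN hb hlt hs _ hok c').1 h4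
    rw [h10] at h5 h6
    obtain ⟨P1, _, e3⟩ := (hb (Sum.inr (Sum.inr (Sum.inl ()))) P (q P)).1 h6
    have h5' : k = 0 := h5
    subst h5'
    exact ⟨P, mem, h, h12, e3⟩
  · rintro ⟨P, mem, h, h1, h2⟩
    have h3 := (chain_iff T q e hN hb hlt hs _ hok (Im T q (P, 0, mem, h))).2 ⟨_, rfl, h1⟩
    refine ⟨_, _, im_le T q hok hlt (by omega), im_le T q (ok_chain T hok h1) hlt (by omega),
      ⟨rfl, rfl, fun _ => rfl, T.blank, fun _ => rfl,
        (hb (Sum.inr (Sum.inr (Sum.inr T.blank))) T.start (q T.start)).2 ⟨T.start, rfl, rfl⟩⟩,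
      h3, rfl, (hb (Sum.inr (Sum.inr (Sum.inl ()))) P (q P)).2 ⟨P, rfl, h2⟩⟩

end

end SIB

theorem t_SIB : SIB_Stmt := by
  intro hN hW hM r S s ω T q e x _ hlt hs hb
  exact SIB.main T q e hN hW hM hb hlt hs

end Pool.Agent.NPB
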