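import Pool.Agent.NPB.St
import Pool.Agent.NPH.TOPS

/-!
# NPB, module TOPB: the assembly for Boolean combinations
-/

set_option autoImplicit false

namespace Pool.Agent.NPB

open Pool.Agent.Heads Pool.Agent.NPH Relation

/-- module TOPB -/
theorem t_TOPB : TOPB_Stmt := by
  intro hCOL hP hF hU hL hM hH k hk
  by_contra hcon
  push Not at hcon
  have H : ∀ (α : Type) [Finite α] (M : PDA α k),
      BC (fun K => ∃ A : SFA α (2 * k), A.lang = K) M.lang := by
    intro α _ M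
    obtain ⟨a, ⟨e⟩⟩ := Finite.exists_equiv_fin α
    obtain ⟨M', hM'⟩ := hP α (a + 1) (TOPS.enc e) (by omega) (TOPS.length_enc e)
      (TOPS.enc_injective e) k M
    obtain ⟨ι, hι, K, 𝓕, hK, hML⟩ := hcon M'
    choose A' hA' using hK
    choose A hA using fun i =>
      hF α (a + 1) (TOPS.enc e) (by omega) (TOPS.length_enc e) (2 * k) (A' i)
    refine ⟨ι, hι, fun i => (A i).lang, 𝓕, fun i => ⟨A i, rfl⟩, fun w => ?_⟩
    rw [← hM' w, hML]
    have e1 : {i | w.flatMap (TOPS.enc e) ∈ K i} = {i | w ∈ (A i).lang} := by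
      ext i
      show List.flatMap (TOPS.enc e) w ∈ K i ↔ w ∈ (A i).lang
      rw [hA i w, hA' i]
    rw [e1]
  obtain ⟨S₀, h⟩ := hCOL hU hL hM k hk H
  obtain ⟨Λ, hΛ, S', L, h1, h2⟩ := hH (2 * k) S₀ (by omega)
  exact h2 (h Λ S' L h1)

end Pool.Agent.NPB
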