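import Pool.Agent.NPB.St
import Pool.Agent.NPH.UDF

/-!
# UIB: the universal predicates for families of machines are definable
-/

set_option autoImplicit false

namespace Pool.Agent.NPB

open Pool.Agent.Heads Pool.Agent.NPH Relation

namespace UIB

section

variable {r S ω : ℕ} (e : Lab r S → ℕ)

/-- initial configurations with a given start state -/
theorem uin (hL : LCL_Stmt) (hC : Calc) (hD : DC) (hA : ARI_Stmt)
    (hb : ∀ (l : ℕ) (X : Set (Option Lam)), Dn (Bit ω l X)) : Dn (UInP ω e) := by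
  obtain ⟨heq, -, h0, -, -, hw⟩ := hA hL hC hD (Option Lam × Fin S)
  refine hD.and _ _ (fun n _ v => v (Sum.inr (Sum.inl 0)) = v (Sum.inl 0)) _ ?_ ?_
  · exact hD.map _ _ (Fin 2) (Fin 1 ⊕ Nu r) id ![Sum.inr (Sum.inl 0), Sum.inl 0] _ heq
  refine hD.and _ _ (fun n _ v => v (Sum.inr (Sum.inl 1)) = 0) _ ?_ ?_
  · exact hD.map _ _ (Fin 1) (Fin 1 ⊕ Nu r) id (fun _ => Sum.inr (Sum.inl 1)) _ (h0 0)
  refine hD.and _ _ (fun n _ v => ∀ j : Fin r, v (Sum.inr (Sum.inr j)) = 0) _ ?_ ?_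
  · exact hD.andf _ (Fin 1 ⊕ Nu r) (Fin r) (fun j n _ v => v (Sum.inr (Sum.inr j)) = 0) fun j =>
      hD.map _ _ (Fin 1) (Fin 1 ⊕ Nu r) id (fun _ => Sum.inr (Sum.inr j)) _ (h0 0)
  · refine hD.orf _ (Fin 1 ⊕ Nu r) (Fin S) (fun b n (w : Fin (n + 1) → Option Lam × Fin S) v =>
      (∀ i, (w i).2 = b) ∧
      Bit ω (e (Sum.inr (Sum.inr (Sum.inr b)))) onL n (fun i => (w i).1)
        ![v (Sum.inl 0), v (Sum.inl 0)]) fun b => ?_
    refine hD.and _ _ (fun n (w : Fin (n + 1) → Option Lam × Fin S) _ => ∀ i, (w i).2 = b) _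
      ?_ ?_
    · exact hw (Fin 1 ⊕ Nu r) (fun n (w : Fin (n + 1) → Option Lam × Fin S) => ∀ i, (w i).2 = b)
        (hC.loc _ _ (hL.2.2.1 _ {x : Option Lam × Fin S | x.2 = b}))
    · exact UDF.bit hD (hb _ _) Prod.fst (Sum.inl 0)

/-- the universal predicate with a start state -/
theorem unip (hD : DC) (h1 : Dn (UInP ω e)) (h2 : Dn (UAc ω e)) (hS : Dn (USt ω e)) :
    Dn (UniP ω e) := by
  have h3 := hD.tc (Option Lam) (Fin S) Empty (Nu r) _ hS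
  have m1 := hD.map _ (Option Lam × (Fin S × Fin S)) _ (Fin 1 ⊕ (Nu r ⊕ Nu r))
    (fun x => (x.1, x.2.1)) (Sum.elim Sum.inl fun j => Sum.inr (Sum.inl j)) _ h1
  have m2 := hD.map _ (Option Lam × (Fin S × Fin S)) _ (Fin 1 ⊕ (Nu r ⊕ Nu r))
    (fun x => (x.1, x.2.2)) (fun j => Sum.inr (Sum.inr j)) _ h2
  have m3 := hD.map _ (Option Lam × (Fin S × Fin S)) _ (Fin 1 ⊕ (Nu r ⊕ Nu r))
    id (Sum.elim Empty.elim Sum.inr) _ h3
  have m := hD.and _ _ _ _ m1 (hD.and _ _ _ _ m3 m2)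
  have m4 := hD.exw (Option Lam) (Fin S × Fin S) _ _ m
  have m5 := hD.exn (Option Lam) (Fin 1) (Nu r ⊕ Nu r) _ m4
  refine m5.congr fun n a v _ => ?_
  have e1 : ∀ u : Nu r ⊕ Nu r → ℕ,
      (Sum.elim v u ∘ Sum.elim Sum.inl fun j => Sum.inr (Sum.inl j)) =
        Sum.elim v (u ∘ Sum.inl) := by
    intro u
    funext j
    rcases j with j | j
    · rfl
    · rfl
  have e2 : ∀ u : Nu r ⊕ Nu r → ℕ,
      (Sum.elim v u ∘ (Sum.elim Empty.elim Sum.inr : Empty ⊕ (Nu r ⊕ Nu r) →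
        Fin 1 ⊕ (Nu r ⊕ Nu r))) ∘ Sum.inl = Empty.elim := by
    intro u
    funext j
    exact j.elim
  constructor
  · rintro ⟨u, hu, b, p1, p2, p3⟩
    rw [e1] at p1
    rw [e2] at p2
    exact ⟨(fun i => (b i).1, u ∘ Sum.inl), (fun i => (b i).2, u ∘ Sum.inr), fun j => hu _,
      fun j => hu _, p1, p2, p3⟩
  · rintro ⟨c, c', hc, hc', p1, p2, p3⟩
    refine ⟨Sum.elim c.2 c'.2, ?_, fun i => (c.1 i, c'.1 i), ?_, ?_, p3⟩
    · rintro (j | j)
      · exact hc j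
      · exact hc' j
    · rw [e1]
      exact p1
    · rw [e2]
      exact p2

/-- the matrix: the number `p'` is a start state and the answer for it is wrong -/
theorem mat (hD : DC) (hb : ∀ (l : ℕ) (X : Set (Option Lam)), Dn (Bit ω l X))
    (hU : Dn (UniP ω e)) (l : Fin 3 → ℕ) :
    Dn fun n (a : Fin (n + 1) → Option Lam) (v : Fin 1 → ℕ) =>
      ∀ p' ≤ n + 1, Bit ω (l 1) onL n a ![p', p'] →
        (UniP ω e n a ![p'] ↔ Bit ω (l 2) onL n a ![v 0, p']) := by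
  have b1 : Dn fun n (a : Fin (n + 1) → Option Lam) (v : Fin 1 ⊕ Fin 1 → ℕ) =>
      Bit ω (l 1) onL n a ![v (Sum.inr 0), v (Sum.inr 0)] :=
    UDF.bit hD (hb _ _) id (Sum.inr 0)
  have b2 : Dn fun n (a : Fin (n + 1) → Option Lam) (v : Fin 1 ⊕ Fin 1 → ℕ) =>
      UniP ω e n a ![v (Sum.inr 0)] := by
    have h := hD.map _ (Option Lam) (Fin 1) (Fin 1 ⊕ Fin 1) id (fun _ => Sum.inr 0) _ hU
    refine h.congr fun n a v _ => ?_
    have e1 : v ∘ (fun _ : Fin 1 => Sum.inr 0) = ![v (Sum.inr 0)] := by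
      funext i
      fin_cases i
      rfl
    show UniP ω e n a (v ∘ fun _ => Sum.inr 0) ↔ _
    rw [e1]
  have b3 : Dn fun n (a : Fin (n + 1) → Option Lam) (v : Fin 1 ⊕ Fin 1 → ℕ) =>
      Bit ω (l 2) onL n a ![v (Sum.inl 0), v (Sum.inr 0)] := by
    have h := hD.map _ (Option Lam) (Fin 2) (Fin 1 ⊕ Fin 1) id ![Sum.inl 0, Sum.inr 0] _
      (hb (l 2) onL)
    refine h.congr fun n a v _ => ?_
    have e1 : v ∘ (![Sum.inl 0, Sum.inr 0] : Fin 2 → Fin 1 ⊕ Fin 1) =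
        ![v (Sum.inl 0), v (Sum.inr 0)] := by
      funext i
      fin_cases i
      · rfl
      · rfl
    show Bit ω (l 2) onL n a (v ∘ ![Sum.inl 0, Sum.inr 0]) ↔ _
    rw [e1]
  have c1 := hD.or _ _ _ _ (hD.and _ _ _ _ b2 b3)
    (hD.and _ _ _ _ (hD.not _ _ _ b2) (hD.not _ _ _ b3))
  have c2 := hD.and _ _ _ _ b1 (hD.not _ _ _ c1)
  have c3 := hD.not _ _ _ (hD.exn (Option Lam) (Fin 1) (Fin 1) _ c2)
  refine c3.congr fun n a v _ => ?_
  constructor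
  · intro h p' hp' hB
    by_contra hne
    refine h ⟨![p'], ?_, hB, ?_⟩
    · intro j
      fin_cases j
      exact hp'
    · rintro (⟨h1, h2⟩ | ⟨h1, h2⟩)
      · exact hne ⟨fun _ => h2, fun _ => h1⟩
      · exact hne ⟨fun h3 => absurd h3 h1, fun h3 => absurd h3 h2⟩
  · rintro h ⟨u, hu, hB, hne⟩
    have h1 := h (u 0) (hu 0) hB
    by_cases h2 : UniP ω e n a ![u 0]
    · exact hne (Or.inl ⟨h2, h1.1 h2⟩)
    · exact hne (Or.inr ⟨h2, fun h3 => h2 (h1.2 h3)⟩)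

/-- the universal predicate for families -/
theorem unib (hC : Calc) (hD : DC) (hb : ∀ (l : ℕ) (X : Set (Option Lam)), Dn (Bit ω l X))
    (hU : Dn (UniP ω e)) (l : Fin 3 → ℕ) : Cc (UniB ω e l) := by
  have b0 : Dn fun n (a : Fin (n + 1) → Option Lam) (v : Fin 1 → ℕ) =>
      Bit ω (l 0) onL n a ![v 0, v 0] :=
    UDF.bit hD (hb _ _) id 0
  have c := hD.and _ _ _ _ b0 (mat e hD hb hU l)
  have c1 := hD.map _ (Option Lam) (Fin 1) (Empty ⊕ Fin 1) id Sum.inr _ c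
  have c2 := hD.exn (Option Lam) Empty (Fin 1) _ c1
  have c3 := UDF.cc_of_dn hC c2
  refine cast (congrArg Cc ?_) c3
  funext n a
  refine propext ⟨?_, ?_⟩
  · rintro ⟨u, hu, h1, h2⟩
    exact ⟨u 0, hu 0, h1, h2⟩
  · rintro ⟨p, hp, h1, h2⟩
    refine ⟨![p], ?_, h1, h2⟩
    intro j
    fin_cases j
    exact hp

end

end UIB

open UIB in
theorem t_UIB : UIB_Stmt := by
  intro hL hC hD hA hB hS hAdd hMul hU r S ω e hω
  have hb : ∀ (l : ℕ) (X : Set (Option Lam)), Dn (Bit ω l X) := fun l X =>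
    hB hL hC hD hA hAdd hMul _ ω l X hω
  have h := unip e hD (uin e hL hC hD hA hb) (UDF.uac e hL hC hD hA hb)
    (hU hL hC hD hA hB hS hAdd hMul r S ω e hω).2.2
  exact ⟨h, unib e hC hD hb h⟩

end Pool.Agent.NPB
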