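import Pool.Agent.NPB.St

/-!
# Project NPB, module UNB: assembly of the universal predicate for Boolean combinations (helper13)
-/

set_option autoImplicit false

namespace Pool.Agent.NPB

open Pool.Agent.Heads Pool.Agent.NPH Relation

namespace UNB

section

variable {r S s ω : ℕ} {ι : Type} (T : ι → RM Lam r S) (𝓕 : Set (Set ι))

/-- the states of the table -/
abbrev States : Type := (Σ i, (T i).Q) ⊕ Set ι

/-- the transitions of the table -/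
def tr (a b : States T) (L : Lab r S ⊕ Fin 3) : Prop :=
  (∃ (i : ι) (P P' : (T i).Q) (L' : Lab r S), a = Sum.inl ⟨i, P⟩ ∧ b = Sum.inl ⟨i, P'⟩ ∧
    L = Sum.inl L' ∧ trn (T i) P P' L') ∨
  (L = Sum.inr 0 ∧ ∃ F ∈ 𝓕, a = Sum.inr F) ∨
  (L = Sum.inr 1 ∧ ∃ i : ι, a = Sum.inl ⟨i, (T i).start⟩) ∨
  (L = Sum.inr 2 ∧ ∃ (F : Set ι) (i : ι), i ∈ F ∧ a = Sum.inr F ∧ b = Sum.inl ⟨i, (T i).start⟩)

theorem tr_inl (i : ι) (P : (T i).Q) (b : States T) (L : Lab r S) :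
    tr T 𝓕 (Sum.inl ⟨i, P⟩) b (Sum.inl L) ↔ ∃ P', Sum.inl ⟨i, P'⟩ = b ∧ trn (T i) P P' L := by
  constructor
  · rintro (⟨i', P₁, P', L', h1, h2, h3, h4⟩ | ⟨h, -⟩ | ⟨h, -⟩ | ⟨h, -⟩)
    · have h5 := Sum.inl.inj h1
      obtain rfl : i = i' := congrArg Sigma.fst h5
      obtain rfl : P = P₁ := eq_of_heq (Sigma.mk.inj h5).2
      obtain rfl : L = L' := Sum.inl.inj h3
      exact ⟨P', h2.symm, h4⟩
    all_goals exact absurd h Sum.inl_ne_inr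
  · rintro ⟨P', rfl, h⟩
    exact Or.inl ⟨i, P, P', L, rfl, rfl, rfl, h⟩

theorem tr_zero (a b : States T) : tr T 𝓕 a b (Sum.inr 0) ↔ ∃ F ∈ 𝓕, a = Sum.inr F := by
  constructor
  · rintro (⟨_, _, _, _, -, -, h, -⟩ | ⟨-, h⟩ | ⟨h, -⟩ | ⟨h, -⟩)
    · exact absurd h Sum.inr_ne_inl
    · exact h
    · exact absurd (Sum.inr.inj h) (by decide)
    · exact absurd (Sum.inr.inj h) (by decide)
  · intro h
    exact Or.inr (Or.inl ⟨rfl, h⟩)

theorem tr_one (a b : States T) :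
    tr T 𝓕 a b (Sum.inr 1) ↔ ∃ i : ι, a = Sum.inl ⟨i, (T i).start⟩ := by
  constructor
  · rintro (⟨_, _, _, _, -, -, h, -⟩ | ⟨h, -⟩ | ⟨-, h⟩ | ⟨h, -⟩)
    · exact absurd h Sum.inr_ne_inl
    · exact absurd (Sum.inr.inj h) (by decide)
    · exact h
    · exact absurd (Sum.inr.inj h) (by decide)
  · intro h
    exact Or.inr (Or.inr (Or.inl ⟨rfl, h⟩))

theorem tr_two (F : Set ι) (i : ι) :
    tr T 𝓕 (Sum.inr F) (Sum.inl ⟨i, (T i).start⟩) (Sum.inr 2) ↔ i ∈ F := by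
  constructor
  · rintro (⟨_, _, _, _, -, -, h, -⟩ | ⟨h, -⟩ | ⟨h, -⟩ | ⟨-, F', i', h1, h2, h3⟩)
    · exact absurd h Sum.inr_ne_inl
    · exact absurd (Sum.inr.inj h) (by decide)
    · exact absurd (Sum.inr.inj h) (by decide)
    · obtain rfl : F = F' := Sum.inr.inj h2
      obtain rfl : i = i' := congrArg Sigma.fst (Sum.inl.inj h3)
      exact h1
  · intro h
    exact Or.inr (Or.inr (Or.inr ⟨rfl, F, i, h, rfl, rfl⟩))

/-- the relation on numbers -/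
def R (q : States T ≃ Fin s) (e : Lab r S ⊕ Fin 3 ≃ Fin ω) (p p' t : ℕ) : Prop :=
  ∃ (a b : States T) (L : Lab r S ⊕ Fin 3), (q a).val = p ∧ (q b).val = p' ∧ (e L).val = t ∧
    tr T 𝓕 a b L

theorem bit (hD : COD_Stmt) (q : States T ≃ Fin s) (e : Lab r S ⊕ Fin 3 ≃ Fin ω)
    (L : Lab r S ⊕ Fin 3) (v : Fin 2 → ℕ) :
    Bit ω (e L).val onL (code s ω (R T 𝓕 q e)).length
      (fun i => (code s ω (R T 𝓕 q e))[(i : ℕ)]?) v ↔
      ∃ a b : States T, (q a).val = v 0 ∧ (q b).val = v 1 ∧ tr T 𝓕 a b L := by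
  rw [hD s ω (R T 𝓕 q e) (e L).val v (e L).2]
  constructor
  · rintro ⟨-, -, a, b, L', h1, h2, h3, h4⟩
    obtain rfl : L' = L := e.injective (Fin.ext h3)
    exact ⟨a, b, h1, h2, h4⟩
  · rintro ⟨a, b, h1, h2, h4⟩
    exact ⟨h1 ▸ (q a).2, h2 ▸ (q b).2, a, b, L, h1, h2, rfl, h4⟩

theorem main (hD : COD_Stmt) (hN : SCN_Stmt) (hW : SWP_Stmt) (hM : MIC_Stmt) (hSIB : SIB_Stmt)
    (q : States T ≃ Fin s) (e : Lab r S ⊕ Fin 3 ≃ Fin ω) (x : List Lam)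
    (hx : x = code s ω (R T 𝓕 q e)) :
    UniB ω (fun L => (e (Sum.inl L)).val) (fun c => (e (Sum.inr c)).val) x.length
      (fun i => x[(i : ℕ)]?) ↔ {i | x ∈ (T i).lang} ∈ 𝓕 := by
  have hω : 1 ≤ ω := Fin.pos (e (Sum.inr 0))
  have hs1 : 1 ≤ s := Fin.pos (q (Sum.inr ∅))
  have hlen : x.length = s * s * ω := by
    rw [hx]
    simp [code]
  have hs : s ≤ x.length := by
    rw [hlen]
    calc s = s * 1 * 1 := by ring
      _ ≤ s * s * ω := Nat.mul_le_mul (Nat.mul_le_mul le_rfl hs1) hω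
  have hb : ∀ (L : Lab r S ⊕ Fin 3) (v : Fin 2 → ℕ),
      Bit ω (e L).val onL x.length (fun i => x[(i : ℕ)]?) v ↔
        ∃ a b : States T, (q a).val = v 0 ∧ (q b).val = v 1 ∧ tr T 𝓕 a b L := by
    intro L v
    rw [hx]
    exact bit T 𝓕 hD q e L v
  have hle : ∀ a : States T, (q a).val ≤ x.length + 1 := fun a => by
    have := (q a).2
    omega
  have h0 : ∀ p, Bit ω (e (Sum.inr 0)).val onL x.length (fun i => x[(i : ℕ)]?) ![p, p] ↔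
      ∃ F ∈ 𝓕, (q (Sum.inr F)).val = p := by
    intro p
    rw [hb]
    constructor
    · rintro ⟨a, b, h1, -, h3⟩
      obtain ⟨F, hF, rfl⟩ := (tr_zero T 𝓕 a b).1 h3
      exact ⟨F, hF, h1⟩
    · rintro ⟨F, hF, h⟩
      exact ⟨Sum.inr F, Sum.inr F, h, h, (tr_zero T 𝓕 _ _).2 ⟨F, hF, rfl⟩⟩
  have h1 : ∀ p, Bit ω (e (Sum.inr 1)).val onL x.length (fun i => x[(i : ℕ)]?) ![p, p] ↔
      ∃ i, (q (Sum.inl ⟨i, (T i).start⟩)).val = p := by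
    intro p
    rw [hb]
    constructor
    · rintro ⟨a, b, h1, -, h3⟩
      obtain ⟨i, rfl⟩ := (tr_one T 𝓕 a b).1 h3
      exact ⟨i, h1⟩
    · rintro ⟨i, h⟩
      exact ⟨_, _, h, h, (tr_one T 𝓕 _ _).2 ⟨i, rfl⟩⟩
  have h2 : ∀ (F : Set ι) (i : ι), Bit ω (e (Sum.inr 2)).val onL x.length (fun i => x[(i : ℕ)]?)
      ![(q (Sum.inr F)).val, (q (Sum.inl ⟨i, (T i).start⟩)).val] ↔ i ∈ F := by
    intro F i
    rw [hb]
    constructor
    · rintro ⟨a, b, h1, h2, h3⟩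
      have h1' : a = Sum.inr F := q.injective (Fin.ext h1)
      have h2' : b = Sum.inl ⟨i, (T i).start⟩ := q.injective (Fin.ext h2)
      rw [h1', h2'] at h3
      exact (tr_two T 𝓕 F i).1 h3
    · intro h
      exact ⟨_, _, rfl, rfl, (tr_two T 𝓕 F i).2 h⟩
  have h3 : ∀ i, UniP ω (fun L => (e (Sum.inl L)).val) x.length (fun i => x[(i : ℕ)]?)
      ![(q (Sum.inl ⟨i, (T i).start⟩)).val] ↔ x ∈ (T i).lang := by
    intro i
    refine hSIB hN hW hM r S s ω (T i) (fun P => (q (Sum.inl ⟨i, P⟩)).val)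
      (fun L => (e (Sum.inl L)).val) x ?_ (fun P => (q _).2) hs ?_
    · intro P P' h
      have h4 := Sum.inl.inj (q.injective (Fin.ext h))
      exact eq_of_heq (Sigma.mk.inj h4).2
    · intro L P p'
      rw [hb]
      constructor
      · rintro ⟨a, b, h1, h2, h4⟩
        have h1' : a = Sum.inl ⟨i, P⟩ := q.injective (Fin.ext h1)
        rw [h1'] at h4
        obtain ⟨P', rfl, h5⟩ := (tr_inl T 𝓕 i P b L).1 h4
        exact ⟨P', h2, h5⟩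
      · rintro ⟨P', h4, h5⟩
        exact ⟨_, _, rfl, h4, (tr_inl T 𝓕 i P _ L).2 ⟨P', rfl, h5⟩⟩
  constructor
  · rintro ⟨p, -, h4, h5⟩
    obtain ⟨F, hF, rfl⟩ := (h0 p).1 h4
    have h6 : {i | x ∈ (T i).lang} = F := by
      ext i
      have h7 := h5 _ (hle (Sum.inl ⟨i, (T i).start⟩)) ((h1 _).2 ⟨i, rfl⟩)
      exact (h3 i).symm.trans (h7.trans (h2 F i))
    rw [h6]
    exact hF
  · intro h
    refine ⟨_, hle (Sum.inr {i | x ∈ (T i).lang}), (h0 _).2 ⟨_, h, rfl⟩, fun p' _ h4 => ?_⟩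
    obtain ⟨i, rfl⟩ := (h1 p').1 h4
    exact (h3 i).trans (h2 {i | x ∈ (T i).lang} i).symm

end

end UNB

theorem t_UNB : UNB_Stmt := by
  intro hLCL hC hDC hARI hADD hMUL hBIT hSCM hUSD hUIB hCOD hSCN hSWP hMIC hSIB r S
  obtain ⟨-, -, hD, hSym⟩ := hSCM hLCL hC hDC hARI
  have hfin : Finite (Lab r S) := inferInstance
  obtain ⟨ω, ⟨e⟩⟩ := Finite.exists_equiv_fin (Lab r S ⊕ Fin 3)
  have hω : 1 ≤ ω := Fin.pos (e (Sum.inr 0))
  refine ⟨UniB ω (fun L => (e (Sum.inl L)).val) (fun c => (e (Sum.inr c)).val),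
    (hUIB hLCL hC hDC hARI hBIT hSCM hADD hMUL hUSD r S ω _ hω).2 _, fun ι hι T 𝓕 => ?_⟩
  have hQ : ∀ i, Finite (T i).Q := fun i => (T i).finQ
  obtain ⟨s, ⟨q⟩⟩ := Finite.exists_equiv_fin ((Σ i, (T i).Q) ⊕ Set ι)
  exact ⟨code s ω (UNB.R T 𝓕 q e), UNB.main T 𝓕 hCOD hSCN hSWP hMIC hSIB q e _ rfl⟩

end Pool.Agent.NPB
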