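import Pool.Agent.NPB.COLB
import Pool.Agent.NPB.TOPB
import Pool.Agent.NPB.HIB
import Pool.Agent.NPB.UNB
import Pool.Agent.NPB.UIB
import Pool.Agent.NPB.SIB
import Pool.Agent.NPH.AsmT

/-!
# Project NPB: T1 for Boolean combinations, assembly
-/

set_option autoImplicit false

namespace Pool.Agent.NPB

open Pool.Agent.Heads Pool.Agent.NPH Relation

theorem univB : UNIVB_Stmt :=
  t_UNB t_LCL calcAll (dcU calcAll) t_ARI t_ADD t_MUL t_BIT t_SCM t_USD t_UIB t_COD t_SCN t_SWP
    t_MIC t_SIB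

theorem hierB : HIERB_Stmt := t_HIB univB t_LOD calcAll

/-- T1 for Boolean combinations. -/
theorem t1x : T1X_Stmt := t_TOPB t_COLB t_BPD t_BFAS upper lowers t_MON hierB

end Pool.Agent.NPB
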