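import Pool.Agent.NPB.St
import Pool.Agent.NPH.COLS

/-!
# Project NPB, module COLB: the collapse for Boolean combinations (adaptation of `NPH/COLS.lean`)
-/

set_option autoImplicit false

namespace Pool.Agent.NPB

open Pool.Agent.Heads Pool.Agent.NPH Relation

theorem t_COLB : COLB_Stmt := by
  intro hU hL hM k hk H
  have step : ∀ (Λ : Type) [Finite Λ] (S β : ℕ) (L : Set (List Λ)), 2 ≤ β → Even β →
      4 * S ≤ β ^ (2 * k) → InT Λ (2 * k) S L →
      BC (InT Λ (2 * k) (2 ^ (2 * k) * β ^ (2 * k - 1))) L := by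
    intro Λ _ S β L hβ he h4 hT
    obtain ⟨M, hMx⟩ := hU Λ k β S hk he h4 L hT
    have h5 : Finite (Sym Λ) := Finite.of_surjective
      (fun o : Option (Option Λ) => match o with
        | none => Sym.left
        | some none => Sym.right
        | some (some a) => Sym.letter a)
      (by
        rintro (_ | a | _)
        · exact ⟨none, rfl⟩
        · exact ⟨some (some a), rfl⟩
        · exact ⟨some none, rfl⟩)
    obtain ⟨ι, hι, K, 𝓕, hK, hKL⟩ := H (Option (Sym Λ)) M
    refine ⟨ι, hι, fun i => {x | pad (β ^ (x.length + 1)) x ∈ K i}, 𝓕, fun i => ?_, fun x => ?_⟩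
    · obtain ⟨A, hA⟩ := hK i
      have h6 := hL Λ (2 * k) β (by omega) hβ A
      rwa [hA] at h6
    · rw [← hMx x, hKL]
      rfl
  refine ⟨(2 * (4 ^ (k + 1) + 1)) ^ (2 * k), ?_⟩
  intro Λ _ S
  induction S using Nat.strong_induction_on with
  | _ S ih =>
    intro L hT
    rcases Nat.lt_or_ge ((2 * (4 ^ (k + 1) + 1)) ^ (2 * k)) S with hS | hS
    · obtain ⟨j, h1, h2, h3⟩ := COLS.numbers hk hS
      exact (step Λ S (2 * j) L (by omega) (even_two_mul j) h2 hT).trans
        fun K hK => ih _ h3 K hK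
    · exact BC.of (hM Λ (2 * k) S _ L hS hT)

end Pool.Agent.NPB
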