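import Pool.Agent.NPH.StU
import Pool.Agent.NPH.StS
import Pool.Agent.NPH.StD

/-!
# Project NPB (MP_5e85fc_lc): T1 for Boolean combinations

T1 (project NPH): for every `k ≥ 1` some language of a two-way `k`-head NPDA is accepted by no two-way
`2k`-head NFA. Here: it is no finite Boolean combination of such languages (for example, its complement
is not accepted by a `2k`-head NFA either). The proof is the same; the collapse (`COLB`) goes through,
and the universal predicate is for finite families of machines together with a Boolean combination.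

All modules: `theorem t_XXX : XXX_Stmt` in `Pool/Agent/NPB/XXX.lean`, namespace `Pool.Agent.NPB`, auxiliary
lemmas in namespace `Pool.Agent.NPB.XXX`.
-/

set_option autoImplicit false

namespace Pool.Agent.NPB

open Pool.Agent.Heads Pool.Agent.NPH Relation

/-- `L` is a finite Boolean combination of sets of the class `C`: whether `x ∈ L` depends only on the set
of the `i` with `x ∈ K i`, for finitely many sets `K i` of the class. -/
def BC {X : Type} (C : Set X → Prop) (L : Set X) : Prop :=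
  ∃ (ι : Type) (_ : Finite ι) (K : ι → Set X) (𝓕 : Set (Set ι)), (∀ i, C (K i)) ∧
    ∀ x, x ∈ L ↔ {i | x ∈ K i} ∈ 𝓕

/-- Members of the class. -/
theorem BC.of {X : Type} {C : Set X → Prop} {L : Set X} (h : C L) : BC C L :=
  ⟨Unit, inferInstance, fun _ => L, {s | () ∈ s}, fun _ => h, fun _ => Iff.rfl⟩

/-- Boolean combinations of Boolean combinations. -/
theorem BC.trans {X : Type} {C C' : Set X → Prop} {L : Set X} (h : BC C L)
    (h' : ∀ K, C K → BC C' K) : BC C' L := by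
  obtain ⟨ι, hι, K, 𝓕, hK, hL⟩ := h
  choose κ hκ K' 𝓕' hK' hL' using fun i => h' (K i) (hK i)
  have := hκ
  refine ⟨Σ i, κ i, inferInstance, fun p => K' p.1 p.2,
    {s | {i | {j | (⟨i, j⟩ : Σ i, κ i) ∈ s} ∈ 𝓕' i} ∈ 𝓕}, fun p => hK' p.1 p.2, fun x => ?_⟩
  rw [hL x]
  have e : {i | x ∈ K i} = {i | {j | x ∈ K' i j} ∈ 𝓕' i} := by
    ext i
    exact hL' i x
  rw [e]
  rfl

/-- The hierarchy theorem for Boolean combinations. -/
def HIERB_Stmt : Prop :=
  ∀ r S : ℕ, 1 ≤ r → ∃ (Λ : Type) (_ : Finite Λ) (S' : ℕ) (L : Set (List Λ)),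
    InT Λ r S' L ∧ ¬ BC (InT Λ r S) L

/-- **T1 for Boolean combinations, sensing heads, binary alphabet.** -/
def T1X_Stmt : Prop :=
  ∀ k : ℕ, 1 ≤ k → ∃ M : PDA (Fin 2) k,
    ¬ BC (fun K => ∃ A : SFA (Fin 2) (2 * k), A.lang = K) M.lang

/-- COLB: the collapse.

Proof. As `COLS` (module `NPH/COLS.lean`; the same number `S₀`): by strong induction on `S`,
`InT Λ (2 k) S L → BC (InT Λ (2 k) S₀) L`. For `S ≤ S₀`: `MONO`, `BC.of`. For `S > S₀`: `β = 2 j`, `UPPER` gives an
NPDA `M` with `pad _ x ∈ M.lang ↔ x ∈ L`; `M.lang` is a Boolean combination of languages `A_i.lang`; so `L`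
is a Boolean combination of the languages `{x | pad _ x ∈ A_i.lang}`, which are in
`InT Λ (2 k) (2 ^ (2 k) * β ^ (2 k - 1))` (`LOWERS`) with `2 ^ (2 k) * β ^ (2 k - 1) < S`; induction and
`BC.trans`. -/
def COLB_Stmt : Prop :=
  UPPER_Stmt → LOWERS_Stmt → MONO_Stmt → ∀ k : ℕ, 1 ≤ k →
    (∀ (α : Type) [Finite α] (M : PDA α k), BC (fun K => ∃ A : SFA α (2 * k), A.lang = K) M.lang) →
    ∃ S₀ : ℕ, ∀ (Λ : Type) [Finite Λ] (S : ℕ) (L : Set (List Λ)),
      InT Λ (2 * k) S L → BC (InT Λ (2 * k) S₀) L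

/-- TOPB: the assembly. The second hypothesis is `BPD` of `NPH/StD.lean`.

Proof. As `TOPS` (module `NPH/TOPS.lean`). Suppose that for some `k ≥ 1` all languages of `M : PDA (Fin 2) k`
are Boolean combinations of languages of sensing automata over `Fin 2`. Then the hypothesis of `COLB`
holds: let `α` be finite, `M : PDA α k`, `enc` an injection of `α` into the binary words of length
`m = card α + 1`, `M'` from `BPD`, `M'.lang` a Boolean combination of the `A'_i.lang` (with `𝓕`), `A_i` from `BFAS`: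
`w ∈ M.lang ↔ w.flatMap enc ∈ M'.lang ↔ {i | w.flatMap enc ∈ A'_i.lang} ∈ 𝓕 ↔ {i | w ∈ A_i.lang} ∈ 𝓕`.
`HIERB` for `r = 2 k`, `S = S₀` contradicts `COLB`. -/
def TOPB_Stmt : Prop := COLB_Stmt →
  (∀ (α : Type) [Finite α] (m : ℕ) (enc : α → List (Fin 2)), 1 ≤ m → (∀ c, (enc c).length = m) →
    Function.Injective enc → ∀ (k : ℕ) (M : PDA α k), ∃ M' : PDA (Fin 2) k,
      ∀ w : List α, w.flatMap enc ∈ M'.lang ↔ w ∈ M.lang) →
  BFAS_Stmt → UPPER_Stmt → LOWERS_Stmt → MONO_Stmt → HIERB_Stmt → T1X_Stmt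

/-! ## The universal predicate for families of machines -/

/-- Initial configurations with the start state `v (inl 0)` (numbers of the configuration: `inr`). -/
def UInP {r S : ℕ} (ω : ℕ) (e : Lab r S → ℕ) : PP (Option Lam × Fin S) (Fin 1 ⊕ Nu r) :=
  fun n w v =>
    v (Sum.inr (Sum.inl 0)) = v (Sum.inl 0) ∧ v (Sum.inr (Sum.inl 1)) = 0 ∧
    (∀ j, v (Sum.inr (Sum.inr j)) = 0) ∧
    ∃ b : Fin S, (∀ i, (w i).2 = b) ∧
      Bit ω (e (Sum.inr (Sum.inr (Sum.inr b)))) onL n (fun i => (w i).1)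
        ![v (Sum.inl 0), v (Sum.inl 0)]

/-- The universal predicate with the start state `v 0`. -/
def UniP {r S : ℕ} (ω : ℕ) (e : Lab r S → ℕ) : PP (Option Lam) (Fin 1) := fun n a v =>
  ∃ c c' : (Fin (n + 1) → Fin S) × (Nu r → ℕ), (∀ j, c.2 j ≤ n + 1) ∧ (∀ j, c'.2 j ≤ n + 1) ∧
    UInP ω e n (zp a c.1) (Sum.elim v c.2) ∧
    ReflTransGen (StepOf (USt ω e) n a Empty.elim) c c' ∧ UAc ω e n (zp a c'.1) c'.2

/-- The universal predicate for families: for some clause `p`, every start state `p'` accepts if and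
only if it is marked in `p`. -/
def UniB {r S : ℕ} (ω : ℕ) (e : Lab r S → ℕ) (l : Fin 3 → ℕ) : WP (Option Lam) := fun n a =>
  ∃ p ≤ n + 1, Bit ω (l 0) onL n a ![p, p] ∧ ∀ p' ≤ n + 1, Bit ω (l 1) onL n a ![p', p'] →
    (UniP ω e n a ![p'] ↔ Bit ω (l 2) onL n a ![p, p'])

/-- UIB: the universal predicates are definable.

Proof. (1) As `UDF` (module `NPH/UDF.lean`, its lemmas `UDF.bit`, `UDF.uac`, `UDF.cc_of_dn` can be imported):
`UInP` is definable (`DC.and`, `DC.orf`, `DC.andf`, `ARI` (1), (3), `UDF.bit`); `DC.tc` for `USt`, `DC.map`,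
`DC.exw`, `DC.exn` with the remaining numbers `Fin 1` (instead of `Empty`).
(2) `Bit ω l onL` with the numbers `![v i, v j]` is definable (`DC.map`), `UniP ω e` with `![v j]` too;
implication, equivalence and `∀ p' ≤ n + 1` by `DC.not`, `DC.and`, `DC.or`, `DC.exn`; so the matrix is definable
with the number `p`, `DC.exn` for `J = Empty`, `UDF.cc_of_dn`. -/
def UIB_Stmt : Prop := LCL_Stmt → Calc → DC → ARI_Stmt → BIT_Stmt → SCM_Stmt → ADD_Stmt →
  MUL_Stmt → USD_Stmt → ∀ (r S ω : ℕ) (e : Lab r S → ℕ), 1 ≤ ω →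
    Dn (UniP ω e) ∧ ∀ l : Fin 3 → ℕ, Cc (UniB ω e l)

/-- SIB: the universal predicate with a start state simulates a machine whose states are some of the
states of the table.

Proof. As `SIM` (module `NPH/SIM.lean`), with the injective function `q` in place of the bijection, and the
condition on the table for pairs `(q P, p')` only: on the way all states are values of `q` (if
`Bit … ![q P, p']` holds for a label then `p'` is a value of `q`). Labels of accepting states and of the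
blank letter at `![q P, q P]`: `trn T P P' L` does not depend on `P'`. -/
def SIB_Stmt : Prop := SCN_Stmt → SWP_Stmt → MIC_Stmt →
  ∀ (r S s ω : ℕ) (T : RM Lam r S) (q : T.Q → ℕ) (e : Lab r S → ℕ) (x : List Lam),
    Function.Injective q → (∀ P, q P < s) → s ≤ x.length →
    (∀ (L : Lab r S) (P : T.Q) (p' : ℕ),
      Bit ω (e L) onL x.length (fun i => x[(i : ℕ)]?) ![q P, p'] ↔
        ∃ P', q P' = p' ∧ trn T P P' L) →
    (UniP ω e x.length (fun i => x[(i : ℕ)]?) ![q T.start] ↔ x ∈ T.lang)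

/-- UNIVB: a universal predicate for Boolean combinations. -/
def UNIVB_Stmt : Prop :=
  ∀ r S : ℕ, ∃ U : WP (Option Lam), Cc U ∧ ∀ (ι : Type) (_ : Finite ι) (T : ι → RM Lam r S)
    (𝓕 : Set (Set ι)), ∃ x : List Lam,
      (U x.length (fun i => x[(i : ℕ)]?) ↔ {i | x ∈ (T i).lang} ∈ 𝓕)

/-- UNB: the assembly.

Proof. `Lab r S ⊕ Fin 3` is finite and not empty: `e' : Lab r S ⊕ Fin 3 ≃ Fin ω`, `1 ≤ ω`;
`e L = (e' (inl L)).val`, `l c = (e' (inr c)).val`, `U = UniB ω e l` (`UIB`). Let `T`, `𝓕` be given. The states of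
the table: `Q = (Σ i, (T i).Q) ⊕ Set ι`, finite and not empty, `q : Q ≃ Fin s`. The transitions `tr a b L`:
`L = inl L'`, `a = inl ⟨i, P⟩`, `b = inl ⟨i, P'⟩` and `trn (T i) P P' L'` (the same `i`); `L = inr 0`: `a = inr F` with
`F ∈ 𝓕`; `L = inr 1`: `a = inl ⟨i, (T i).start⟩`; `L = inr 2`: `a = inr F`, `b = inl ⟨i, (T i).start⟩`, `i ∈ F`.
`R p p' t` iff `∃ a b L, (q a).val = p ∧ (q b).val = p' ∧ (e' L).val = t ∧ tr a b L`; `x = code s ω R`, of length
`s * s * ω ≥ s`. By `COD` `Bit ω t onL … ![p, p'] ↔ p < s ∧ p' < s ∧ R p p' t` for `t < ω`. `SIB` for `T i`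
with `P ↦ (q (inl ⟨i, P⟩)).val`: `UniP … ![q (inl ⟨i, start⟩)] ↔ x ∈ (T i).lang`. So `UniB` holds for `x` iff
for some `F ∈ 𝓕`, for all `i`: `x ∈ (T i).lang ↔ i ∈ F`; i.e. iff `{i | x ∈ (T i).lang} ∈ 𝓕`. -/
def UNB_Stmt : Prop := LCL_Stmt → Calc → DC → ARI_Stmt → ADD_Stmt → MUL_Stmt → BIT_Stmt →
  SCM_Stmt → USD_Stmt → UIB_Stmt → COD_Stmt → SCN_Stmt → SWP_Stmt → MIC_Stmt → SIB_Stmt →
  UNIVB_Stmt

/-- HIB: the hierarchy theorem.

Proof. As `HIE` (module `NPH/HIE.lean`): `L = {x | ¬ U x}` (`LOD`, `Calc.not`). If `L` is a Boolean combination of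
languages of machines `T i` with `𝓕`, take the `x` of `UNIVB`:
`x ∈ L ↔ {i | x ∈ (T i).lang} ∈ 𝓕 ↔ U x ↔ x ∉ L`. -/
def HIB_Stmt : Prop := UNIVB_Stmt → LOD_Stmt → Calc → HIERB_Stmt

end Pool.Agent.NPB
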